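import Pool.Agent.W187.WQ.BotS

/-! WQ-KO: averaging and difference operators applied to a bump function. -/

set_option autoImplicit false

open Complex MeasureTheory Set Filter
open Pool.Agent.W187.WP Pool.Agent.W187.WQ

namespace Pool.Agent.W571.WQ

/-- a twice differentiable function with compact support, with bounds -/
structure Gd (f : ℝ → ℂ) (δ B : ℝ) : Prop where
  smooth : ContDiff ℝ 2 f
  supp : ∀ u, δ < |u| → f u = 0
  bd : ∀ u, ‖f u‖ ≤ B

lemma Gd.nonneg {f : ℝ → ℂ} {δ B : ℝ} (h : Gd f δ B) : 0 ≤ B := (norm_nonneg _).trans (h.bd 0)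

lemma Gd.compact {f : ℝ → ℂ} {δ B : ℝ} (h : Gd f δ B) : HasCompactSupport f := by
  apply HasCompactSupport.intro (isCompact_Icc (a := -δ) (b := δ))
  intro u hu
  apply h.supp
  by_contra hc
  push Not at hc
  exact hu (mem_Icc.2 (abs_le.1 hc))

lemma Gd.integ {f : ℝ → ℂ} {δ B : ℝ} (h : Gd f δ B) (z : ℂ) :
    Integrable (fun u : ℝ => f u * cexp (z * u)) := by
  apply Continuous.integrable_of_hasCompactSupport
  · exact h.smooth.continuous.mul (by fun_prop)
  · exact h.compact.mul_right

lemma shift (f : ℝ → ℂ) (z : ℂ) (a : ℝ) :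
    ∫ u : ℝ, f (u - a) * cexp (z * u) = cexp (z * a) * lap f z := by
  have h1 := integral_sub_right_eq_self (fun u : ℝ => f u * cexp (z * (u + a : ℝ))) a (μ := volume)
  simp only [sub_add_cancel] at h1
  rw [h1]
  unfold lap
  rw [← integral_const_mul]
  congr 1
  funext u
  push_cast
  rw [mul_add, Complex.exp_add]
  ring

lemma shift_integ {f : ℝ → ℂ} {δ B : ℝ} (h : Gd f δ B) (z : ℂ) (a : ℝ) :
    Integrable (fun u : ℝ => f (u - a) * cexp (z * u)) := by
  have h1 := ((h.integ z).comp_sub_right a).const_mul (cexp (z * a))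
  apply h1.congr
  filter_upwards with u
  push_cast
  rw [mul_sub, Complex.exp_sub]
  field_simp

/-- the difference operator -/
lemma diff_step {f : ℝ → ℂ} {δ B : ℝ} (h : Gd f δ B) {d : ℝ} (hd0 : 0 < d) (hd1 : d ≤ 1) {w : ℂ}
    (hw : |w.re| ≤ 1 / 2) : Gd (fun u => f u - cexp (-(w * d)) * f (u - d)) (δ + d) (3 * B) ∧
    ∀ z, lap (fun u => f u - cexp (-(w * d)) * f (u - d)) z = (1 - cexp ((z - w) * d)) * lap f z := by
  refine ⟨⟨?_, ?_, ?_⟩, ?_⟩
  · apply h.smooth.sub
    apply contDiff_const.mul
    exact h.smooth.comp (contDiff_id.sub contDiff_const)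
  · intro u hu
    have h1 : f u = 0 := h.supp u (by linarith)
    have h2 : f (u - d) = 0 := by
      apply h.supp
      have := abs_sub_abs_le_abs_sub u d
      rw [abs_of_pos hd0] at this
      linarith
    rw [h1, h2]
    ring
  · intro u
    have h1 : ‖cexp (-(w * d))‖ ≤ 2 := by
      rw [Complex.norm_exp]
      have h2 : (-(w * d)).re = -(w.re * d) := by simp
      rw [h2]
      have h3 := abs_le.1 hw
      have h4 : -(w.re * d) ≤ 1 / 2 := by nlinarith
      have h5 : Real.exp (-(w.re * d)) ≤ Real.exp (1 / 2) := Real.exp_le_exp.2 h4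
      have h6 : Real.exp (1 / 2) ≤ 2 := by
        have h7 : Real.exp (1 / 2) ^ 2 = Real.exp 1 := by
          rw [← Real.exp_nat_mul]
          norm_num
        have h8 := Real.exp_one_lt_d9
        nlinarith [Real.exp_pos (1 / 2)]
      linarith
    have hB := h.nonneg
    calc ‖f u - cexp (-(w * d)) * f (u - d)‖
        ≤ ‖f u‖ + ‖cexp (-(w * d)) * f (u - d)‖ := norm_sub_le _ _
      _ = ‖f u‖ + ‖cexp (-(w * d))‖ * ‖f (u - d)‖ := by rw [norm_mul]
      _ ≤ B + 2 * B := by
          have := h.bd u
          have h2 := h.bd (u - d)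
          have h3 := mul_le_mul h1 h2 (norm_nonneg _) (by norm_num)
          linarith
      _ = 3 * B := by ring
  · intro z
    have h1 := h.integ z
    have h2 := (shift_integ h z d).const_mul (cexp (-(w * d)))
    have e : lap (fun u => f u - cexp (-(w * d)) * f (u - d)) z =
        ∫ u : ℝ, (f u * cexp (z * u) - cexp (-(w * d)) * (f (u - d) * cexp (z * u))) := by
      unfold lap
      congr 1
      funext u
      ring
    rw [e, integral_sub h1 h2, integral_const_mul, shift]
    have e2 : cexp ((z - w) * d) = cexp (-(w * d)) * cexp (z * d) := by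
      rw [← Complex.exp_add]
      congr 1
      ring
    rw [e2]
    unfold lap
    ring

lemma prim_contDiff {f : ℝ → ℂ} (hf : ContDiff ℝ 2 f) :
    ContDiff ℝ 2 (fun u : ℝ => ∫ s in (0 : ℝ)..u, f s) := by
  have hd : ∀ u, HasDerivAt (fun u : ℝ => ∫ s in (0 : ℝ)..u, f s) (f u) u := fun u =>
    (hf.continuous.integral_hasStrictDerivAt 0 u).hasDerivAt
  have h2 : (2 : WithTop ℕ∞) = 1 + 1 := by norm_num
  rw [h2, contDiff_succ_iff_deriv]
  refine ⟨fun u => (hd u).differentiableAt, fun h => absurd h WithTop.one_ne_top, ?_⟩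
  have : deriv (fun u : ℝ => ∫ s in (0 : ℝ)..u, f s) = f := funext fun u => (hd u).deriv
  rw [this]
  exact hf.of_le (by norm_num)

/-- the averaging operator -/
lemma avg_step {f : ℝ → ℂ} {δ B : ℝ} (h : Gd f δ B) {a : ℝ} (ha : 0 < a) :
    Gd (fun u => ∫ t in (0 : ℝ)..1, f (u - a * t)) (δ + a) B ∧
    ∀ z, lap (fun u => ∫ t in (0 : ℝ)..1, f (u - a * t)) z =
      (∫ t in (0 : ℝ)..1, cexp (z * a * t)) * lap f z := by
  refine ⟨⟨?_, ?_, ?_⟩, ?_⟩
  · have e : (fun u => ∫ t in (0 : ℝ)..1, f (u - a * t)) =
        fun u => (a⁻¹ : ℝ) • ((∫ s in (0 : ℝ)..u, f s) - ∫ s in (0 : ℝ)..(u - a), f s) := by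
      funext u
      have h1 := intervalIntegral.integral_comp_sub_mul f ha.ne' u (a := 0) (b := 1)
      rw [h1]
      have hi : ∀ x y : ℝ, IntervalIntegrable f volume x y := fun x y =>
        h.smooth.continuous.intervalIntegrable x y
      rw [mul_one, mul_zero, sub_zero,
        intervalIntegral.integral_interval_sub_left (hi _ _) (hi _ _)]
    rw [e]
    have hp := prim_contDiff h.smooth
    exact (hp.sub (hp.comp (contDiff_id.sub contDiff_const))).const_smul _
  · intro u hu
    have : ∀ t ∈ uIcc (0 : ℝ) 1, f (u - a * t) = 0 := by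
      intro t ht
      rw [uIcc_of_le zero_le_one] at ht
      apply h.supp
      have h1 := abs_sub_abs_le_abs_sub u (a * t)
      have h2 : |a * t| ≤ a := by
        rw [abs_of_nonneg (mul_nonneg ha.le ht.1)]
        nlinarith [ht.2]
      linarith
    rw [intervalIntegral.integral_congr this]
    simp
  · intro u
    have h1 := intervalIntegral.norm_integral_le_of_norm_le_const (a := 0) (b := 1)
      (f := fun t : ℝ => f (u - a * t)) (C := B) (fun t _ => h.bd _)
    simpa using h1
  · intro z
    have e : lap (fun u => ∫ t in (0 : ℝ)..1, f (u - a * t)) z =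
        ∫ u : ℝ, ∫ t in Ioc (0 : ℝ) 1, f (u - a * t) * cexp (z * u) := by
      unfold lap
      congr 1
      funext u
      beta_reduce
      rw [intervalIntegral.integral_of_le zero_le_one, integral_mul_const]
    have hcont : Continuous (fun p : ℝ × ℝ => f (p.1 - a * p.2) * cexp (z * p.1)) := by
      apply Continuous.mul
      · exact h.smooth.continuous.comp (by fun_prop)
      · fun_prop
    have hint : Integrable (fun p : ℝ × ℝ => f (p.1 - a * p.2) * cexp (z * p.1))
        (volume.prod (volume.restrict (Ioc (0 : ℝ) 1))) := by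
      rw [integrable_prod_iff' hcont.aestronglyMeasurable]
      constructor
      · filter_upwards with t
        exact shift_integ h z (a * t)
      · have e2 : (fun t : ℝ => ∫ u : ℝ, ‖f (u - a * t) * cexp (z * u)‖) =
            fun t : ℝ => ‖cexp (z * (a * t : ℝ))‖ * ∫ u : ℝ, ‖f u * cexp (z * u)‖ := by
          funext t
          have h1 := integral_sub_right_eq_self
            (fun u : ℝ => ‖f u * cexp (z * (u + a * t : ℝ))‖) (a * t) (μ := volume)
          simp only [sub_add_cancel] at h1
          rw [h1, ← integral_const_mul]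
          congr 1
          funext u
          push_cast
          rw [mul_add, Complex.exp_add, norm_mul, norm_mul, norm_mul]
          ring
        rw [e2]
        apply Integrable.mul_const
        apply Continuous.integrableOn_Ioc
        fun_prop
    rw [e, integral_integral_swap hint]
    have e3 : ∀ t : ℝ, ∫ u : ℝ, f (u - a * t) * cexp (z * u) = cexp (z * a * t) * lap f z := by
      intro t
      rw [shift]
      push_cast
      rw [mul_assoc]
    simp only [e3]
    rw [integral_mul_const, intervalIntegral.integral_of_le zero_le_one]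

theorem ko : S_KO := by
  intro b δ₀ B hb hs hB Z d h N hd0 hd1 hh
  have base : ∀ N : ℕ, ∃ k : ℝ → ℂ, Gd k (δ₀ + N * h) B ∧
      ∀ z : ℂ, lap k z = (∫ t in (0 : ℝ)..1, cexp (z * h * t)) ^ N * lap b z := by
    intro N
    induction N with
    | zero => exact ⟨b, ⟨hb, by simpa using hs, hB⟩, fun z => by simp⟩
    | succ n ih =>
      obtain ⟨k, hk, hl⟩ := ih
      obtain ⟨h1, h2⟩ := avg_step hk hh
      refine ⟨fun u => ∫ t in (0 : ℝ)..1, k (u - h * t), ?_, fun z => ?_⟩
      · have e : δ₀ + ((n + 1 : ℕ) : ℝ) * h = δ₀ + n * h + h := by push_cast; ring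
        rw [e]
        exact h1
      · rw [h2, hl]
        ring
  induction Z with
  | nil =>
    intro _
    obtain ⟨k, hk, hl⟩ := base N
    refine ⟨k, hk.smooth, ?_, ?_, ?_⟩
    · intro u hu
      apply hk.supp
      simpa using hu
    · simpa using hk.bd
    · intro z
      rw [hl]
      simp
  | cons w Z ih =>
    intro hw
    obtain ⟨k, hk1, hk2, hk3, hk4⟩ := ih (fun w' hw' => hw w' (List.mem_cons_of_mem _ hw'))
    have hk : Gd k (δ₀ + Z.length * d + N * h) (3 ^ Z.length * B) := ⟨hk1, hk2, hk3⟩
    obtain ⟨h1, h2⟩ := diff_step hk hd0 hd1 (hw w List.mem_cons_self)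
    refine ⟨_, h1.smooth, ?_, ?_, ?_⟩
    · intro u hu
      apply h1.supp
      have e : δ₀ + ((w :: Z).length : ℝ) * d + N * h = δ₀ + Z.length * d + N * h + d := by
        rw [List.length_cons]; push_cast; ring
      rw [e] at hu
      exact hu
    · intro u
      refine (h1.bd u).trans (le_of_eq ?_)
      rw [List.length_cons]
      ring
    · intro z
      rw [h2, hk4, List.map_cons, List.prod_cons]
      ring

end Pool.Agent.W571.WQ
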