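import Pool.Agent.W187.WQ.BotS
import Pool.Agent.W8.WP.LapB
import Pool.Agent.W190.C3

/-! WQ-KP: localised functions isolating one zero. -/

set_option autoImplicit false

open Complex MeasureTheory Set Filter Topology
open Pool.Agent.W187.WP Pool.Agent.W187.WQ

namespace Pool.Agent.W571.WQ.KP

open Pool.Agent.W190 (ZF mem_ZF Dens exists_gap carlson)
open H353 (FF mu mu_pos)

lemma zero_FF {s : ℂ} (h : s ∈ Zr) : FF s = 0 := by
  have hs1 : s ≠ 1 := by
    rintro rfl
    have := h.2.2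
    simp at this
  show ZU.J_g2b.FF s = 0
  rw [ZU.J_g2b.FF_ne hs1, h.1, mul_zero]

lemma asymp (C A K α ε : ℝ) (hA : 0 < A) (hK : 0 < K) (hα : α < 1) (hε : 0 < ε) :
    ∀ᶠ L : ℝ in atTop, C * (A * L) ^ α * Real.log (K * L) ≤ ε * L := by
  have h1 : Tendsto (fun L : ℝ => L ^ (-(1 - α))) atTop (𝓝 0) :=
    tendsto_rpow_neg_atTop (by linarith)
  have h2 : Tendsto (fun L : ℝ => Real.log L / L ^ (1 - α)) atTop (𝓝 0) :=
    (isLittleO_log_rpow_atTop (by linarith)).tendsto_div_nhds_zero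
  have h3 : Tendsto (fun L : ℝ => C * A ^ α * (Real.log K * L ^ (-(1 - α)) +
      Real.log L / L ^ (1 - α))) atTop (𝓝 (C * A ^ α * (Real.log K * 0 + 0))) :=
    ((h1.const_mul _).add h2).const_mul _
  rw [mul_zero, add_zero, mul_zero] at h3
  filter_upwards [h3.eventually_lt_const hε, eventually_gt_atTop 0] with L hL hL0
  have e1 : C * (A * L) ^ α * Real.log (K * L) =
      (C * A ^ α * (Real.log K * L ^ (-(1 - α)) + Real.log L / L ^ (1 - α))) * L := by
    rw [Real.mul_rpow hA.le hL0.le, Real.log_mul hK.ne' hL0.ne', Real.rpow_neg hL0.le,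
      Real.rpow_sub hL0, Real.rpow_one]
    have : L ^ α ≠ 0 := (Real.rpow_pos_of_pos hL0 _).ne'
    field_simp
  rw [e1]
  exact mul_le_mul_of_nonneg_right hL.le hL0.le

lemma prod_le (f : ℂ → ℂ) (a : ℝ) (Z : List ℂ) (h : ∀ w ∈ Z, ‖f w‖ ≤ a) :
    ‖(Z.map f).prod‖ ≤ a ^ Z.length := by
  induction Z with
  | nil => simp
  | cons w Z ih =>
    have h1 := h w List.mem_cons_self
    have h2 := ih fun w' hw' => h w' (List.mem_cons_of_mem _ hw')
    rw [List.map_cons, List.prod_cons, norm_mul, List.length_cons, pow_succ, mul_comm]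
    exact mul_le_mul h2 h1 (norm_nonneg _) (pow_nonneg ((norm_nonneg _).trans h1) _)

lemma prod_ge (f : ℂ → ℂ) (a : ℝ) (ha : 0 ≤ a) (Z : List ℂ) (h : ∀ w ∈ Z, a ≤ ‖f w‖) :
    a ^ Z.length ≤ ‖(Z.map f).prod‖ := by
  induction Z with
  | nil => simp
  | cons w Z ih =>
    have h1 := h w List.mem_cons_self
    have h2 := ih fun w' hw' => h w' (List.mem_cons_of_mem _ hw')
    rw [List.map_cons, List.prod_cons, norm_mul, List.length_cons, pow_succ, mul_comm]
    exact mul_le_mul h1 h2 (by positivity) (norm_nonneg _)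

/-- the bump function -/
lemma bump (z₀ : ℂ) (δ : ℝ) (hδ : 0 < δ) : ∃ b : ℝ → ℂ, ContDiff ℝ 2 b ∧ HasCompactSupport b ∧
    (∀ u, δ / 4 < |u| → b u = 0) ∧ (∀ u, ‖b u‖ ≤ 1) ∧ 0 < ‖lap b z₀‖ := by
  set r : ℝ := min (δ / 4) (1 / (‖z₀‖ + 1)) with hr
  have hr0 : 0 < r := lt_min (by positivity) (by positivity)
  let φ : ContDiffBump (0 : ℝ) := ⟨r / 2, r, by positivity, by linarith⟩
  have hφc : Continuous φ := φ.continuous
  have hφs : ∀ u, r < |u| → φ u = 0 := by
    intro u hu
    apply φ.zero_of_le_dist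
    rw [Real.dist_eq, sub_zero]
    exact hu.le
  have hcb : HasCompactSupport (fun u : ℝ => ((φ u : ℝ) : ℂ)) :=
    φ.hasCompactSupport.comp_left (g := fun t : ℝ => (t : ℂ)) (by simp)
  refine ⟨fun u => ((φ u : ℝ) : ℂ), ?_, hcb, ?_, ?_, ?_⟩
  · exact Complex.ofRealCLM.contDiff.comp φ.contDiff
  · intro u hu
    show ((φ u : ℝ) : ℂ) = 0
    rw [hφs u (lt_of_le_of_lt (min_le_left _ _) hu)]
    simp
  · intro u
    rw [Complex.norm_real, Real.norm_of_nonneg φ.nonneg]
    exact φ.le_one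
  · have hre : 0 < (lap (fun u => ((φ u : ℝ) : ℂ)) z₀).re := by
      have hint : Integrable (fun u : ℝ => ((φ u : ℝ) : ℂ) * cexp (z₀ * u)) := by
        apply Continuous.integrable_of_hasCompactSupport
        · exact (Complex.continuous_ofReal.comp hφc).mul (by fun_prop)
        · exact hcb.mul_right
      have e1 : (lap (fun u => ((φ u : ℝ) : ℂ)) z₀).re =
          ∫ u : ℝ, φ u * (Real.exp (z₀.re * u) * Real.cos (z₀.im * u)) := by
        unfold lap
        have h1 := reCLM.integral_comp_comm hint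
        simp only [reCLM_apply] at h1
        rw [← h1]
        congr 1
        funext u
        rw [Complex.re_ofReal_mul, Complex.exp_re]
        simp
      rw [e1]
      have hcos : ∀ u : ℝ, |u| ≤ r → 0 < Real.cos (z₀.im * u) := by
        intro u hu
        have h1 : |z₀.im * u| ≤ 1 := by
          rw [abs_mul]
          have h2 : |u| ≤ 1 / (‖z₀‖ + 1) := hu.trans (min_le_right _ _)
          have h3 := Complex.abs_im_le_norm z₀
          rw [le_div_iff₀ (by positivity)] at h2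
          nlinarith [abs_nonneg u, abs_nonneg z₀.im]
        have h2 := abs_le.1 h1
        have h3 := Real.pi_gt_three
        exact Real.cos_pos_of_mem_Ioo ⟨by linarith, by linarith⟩
      have hcont : Continuous (fun u : ℝ => φ u * (Real.exp (z₀.re * u) * Real.cos (z₀.im * u))) :=
        hφc.mul (by fun_prop)
      apply hcont.integral_pos_of_hasCompactSupport_nonneg_nonzero
      · exact φ.hasCompactSupport.mul_right
      · intro u
        by_cases hu : |u| ≤ r
        · have := hcos u hu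
          have h2 := φ.nonneg (x := u)
          positivity
        · push Not at hu
          simp only [Pi.zero_apply]
          rw [hφs u hu, zero_mul]
      · show φ 0 * (Real.exp (z₀.re * 0) * Real.cos (z₀.im * 0)) ≠ 0
        have h0 : φ 0 = 1 := by
          apply φ.one_of_mem_closedBall
          rw [Metric.mem_closedBall, dist_self]
          exact φ.rIn_pos.le
        rw [h0]
        simp
    exact lt_of_lt_of_le hre (Complex.re_le_norm _)

/-- elementary bounds for the average of an exponential -/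
lemma avg_le (z : ℂ) (h : ℝ) (hz : |z.re| ≤ 1 / 2) (hh : 0 < h) :
    ‖∫ t in (0 : ℝ)..1, cexp (z * h * t)‖ ≤ Real.exp (h / 2) := by
  have h1 := intervalIntegral.norm_integral_le_of_norm_le_const (a := 0) (b := 1)
    (f := fun t : ℝ => cexp (z * h * t)) (C := Real.exp (h / 2)) (fun t ht => by
      rw [uIoc_of_le zero_le_one] at ht
      rw [Complex.norm_exp]
      apply Real.exp_le_exp.2
      have e : (z * h * t).re = z.re * h * t := by simp
      rw [e]
      have h2 := abs_le.1 hz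
      have h3 : z.re * h ≤ h / 2 := by nlinarith
      nlinarith [ht.1, ht.2])
  simpa using h1

lemma avg_small (z : ℂ) (h T : ℝ) (hz : |z.re| ≤ 1 / 2) (hh : 0 < h) (hh1 : h ≤ 1)
    (hT : 12 ≤ T * h) (him : T ≤ |z.im|) :
    ‖∫ t in (0 : ℝ)..1, cexp (z * h * t)‖ ≤ 1 / 4 := by
  have hTp : 0 < T := by
    by_contra hc
    push Not at hc
    nlinarith
  have hzn : T ≤ ‖z‖ := him.trans (Complex.abs_im_le_norm z)
  have hz0 : z ≠ 0 := by
    rintro rfl
    simp at hzn
    linarith
  have hh0 : (h : ℂ) ≠ 0 := by exact_mod_cast hh.ne'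
  rw [integral_exp_mul_complex (mul_ne_zero hz0 hh0)]
  rw [norm_div, norm_mul, Complex.norm_real, Real.norm_of_nonneg hh.le]
  have h1 : ‖cexp (z * h * ((1 : ℝ) : ℂ)) - cexp (z * h * ((0 : ℝ) : ℂ))‖ ≤ 3 := by
    have e0 : cexp (z * h * ((0 : ℝ) : ℂ)) = 1 := by simp
    rw [e0]
    have h2 : ‖cexp (z * h * ((1 : ℝ) : ℂ))‖ ≤ 2 := by
      rw [Complex.norm_exp]
      have e : (z * h * ((1 : ℝ) : ℂ)).re = z.re * h := by simp
      rw [e]
      have h2 := abs_le.1 hz
      have h3 : z.re * h ≤ 1 / 2 := by nlinarith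
      have h5 : Real.exp (z.re * h) ≤ Real.exp (1 / 2) := Real.exp_le_exp.2 h3
      have h6 : Real.exp (1 / 2) ≤ 2 := by
        have h7 : Real.exp (1 / 2) ^ 2 = Real.exp 1 := by
          rw [← Real.exp_nat_mul]
          norm_num
        have h8 := Real.exp_one_lt_d9
        nlinarith [Real.exp_pos (1 / 2)]
      linarith
    have h3 := norm_sub_le (cexp (z * h * ((1 : ℝ) : ℂ))) 1
    rw [norm_one] at h3
    linarith
  rw [div_le_iff₀ (by positivity)]
  have h4 : T * h ≤ ‖z‖ * h := mul_le_mul_of_nonneg_right hzn hh.le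
  linarith

lemma avg_ge (z : ℂ) (h : ℝ) (hh : 0 < h) (hz : ‖z‖ * h ≤ 1 / 4) :
    Real.exp (-(4 * (‖z‖ * h))) ≤ ‖∫ t in (0 : ℝ)..1, cexp (z * h * t)‖ := by
  set x := ‖z‖ * h with hx
  have hx0 : 0 ≤ x := by positivity
  have h1 : ‖∫ t in (0 : ℝ)..1, (cexp (z * h * t) - 1)‖ ≤ 2 * x := by
    have h2 := intervalIntegral.norm_integral_le_of_norm_le_const (a := 0) (b := 1)
      (f := fun t : ℝ => cexp (z * h * t) - 1) (C := 2 * x) (fun t ht => by
        rw [uIoc_of_le zero_le_one] at ht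
        have e : ‖z * h * t‖ = x * t := by
          rw [norm_mul, norm_mul, Complex.norm_real, Complex.norm_real,
            Real.norm_of_nonneg hh.le, Real.norm_of_nonneg ht.1.le]
        have h3 : ‖z * h * t‖ ≤ x := by
          rw [e]
          nlinarith [ht.2]
        have h4 := Complex.norm_exp_sub_one_le (x := z * h * t) (by linarith)
        linarith)
    simpa using h2
  have h2 : ∫ t in (0 : ℝ)..1, cexp (z * h * t) = 1 + ∫ t in (0 : ℝ)..1, (cexp (z * h * t) - 1) := by
    rw [intervalIntegral.integral_sub]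
    · simp
    · apply Continuous.intervalIntegrable
      fun_prop
    · exact intervalIntegrable_const
  have h3 : 1 - 2 * x ≤ ‖∫ t in (0 : ℝ)..1, cexp (z * h * t)‖ := by
    rw [h2]
    have h4 := norm_sub_le (1 + ∫ t in (0 : ℝ)..1, (cexp (z * h * t) - 1))
      (∫ t in (0 : ℝ)..1, (cexp (z * h * t) - 1))
    rw [add_sub_cancel_right, norm_one] at h4
    linarith
  refine le_trans ?_ h3
  -- exp (-(4x)) ≤ 1 - 2x for 0 ≤ x ≤ 1/4
  have h5 := Real.add_one_le_exp (4 * x)
  rw [Real.exp_neg, inv_le_iff_one_le_mul₀ (Real.exp_pos _)]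
  have h6 : 0 ≤ 1 - 2 * x := by linarith
  calc (1 : ℝ) ≤ (1 - 2 * x) * (4 * x + 1) := by nlinarith
    _ ≤ (1 - 2 * x) * Real.exp (4 * x) := mul_le_mul_of_nonneg_left h5 h6

lemma fac_ge (x : ℂ) (hx : ‖x‖ ≤ 1 / 2) : ‖x‖ / 2 ≤ ‖1 - cexp x‖ := by
  have h1 := Complex.norm_exp_sub_one_sub_id_le (x := x) (by linarith)
  have h2 := norm_sub_le (cexp x - 1) (cexp x - 1 - x)
  have h3 : cexp x - 1 - (cexp x - 1 - x) = x := by ring
  rw [h3] at h2
  rw [norm_sub_rev]
  nlinarith [norm_nonneg x]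

lemma fac_le (z w : ℂ) (d : ℝ) (hd0 : 0 < d) (hd1 : d ≤ 1) (hz : |z.re| ≤ 1 / 2)
    (hw : |w.re| ≤ 1 / 2) : ‖1 - cexp ((z - w) * d)‖ ≤ 4 := by
  have h1 := norm_sub_le (1 : ℂ) (cexp ((z - w) * d))
  rw [norm_one] at h1
  have h2 : ‖cexp ((z - w) * d)‖ ≤ 3 := by
    rw [Complex.norm_exp]
    have e : ((z - w) * d).re = (z.re - w.re) * d := by simp
    rw [e]
    have h3 := abs_le.1 hz
    have h4 := abs_le.1 hw
    have h5 : (z.re - w.re) * d ≤ 1 := by nlinarith
    have h6 := Real.exp_le_exp.2 h5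
    have h7 := Real.exp_one_lt_d9
    linarith
  linarith

theorem kp (hKO : S_KO) : S_KK := by
  intro ρ₀ σ δ η hρ₀ hσ hσ1 hδ hη
  -- density
  set α : ℝ := 4 * σ * (1 - σ) + (1 - 4 * σ * (1 - σ)) / 2 with hα
  have hq : 4 * σ * (1 - σ) < 1 := by nlinarith
  have hq0 : 0 < 4 * σ * (1 - σ) := by
    have : 0 < 1 - σ := by linarith
    have : 0 < σ := by linarith
    positivity
  have hα1 : α < 1 := by rw [hα]; linarith
  have hα0 : 0 < α := by rw [hα]; linarith
  obtain ⟨C, hC, hdens⟩ := carlson σ _ hσ hσ1 (by linarith : 0 < (1 - 4 * σ * (1 - σ)) / 2)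
  obtain ⟨c₀, hc₀, hc₀1, hgap⟩ := exists_gap ρ₀
  set z₀ : ℂ := ρ₀ - 1 / 2 with hz₀
  have hz₀re : |z₀.re| ≤ 1 / 2 := by
    rw [hz₀, abs_le]
    have h1 := hρ₀.2
    simp only [sub_re, one_re, div_ofNat_re]
    constructor <;> linarith [h1.1, h1.2]
  obtain ⟨b, hb, hbc, hbs, hbB, hbz⟩ := bump z₀ δ hδ
  obtain ⟨Cb, hCb, hbd⟩ := Pool.Agent.W8.WP.lap_decay hb hbc (1 / 2)
  set β : ℝ := ‖lap b z₀‖ with hβ
  set A : ℝ := 144 / δ + 3 with hA
  have hAp : 0 < A := by positivity
  set η' : ℝ := min η 1 with hη'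
  have hη'0 : 0 < η' := lt_min hη one_pos
  have hη'1 : η' ≤ 1 := min_le_right _ _
  have hη'η : η' ≤ η := min_le_left _ _
  have hev1 := asymp C A (32 * A / c₀) α (η' / 4) hAp (by positivity) hα1 (by positivity)
  have hev2 : ∀ᶠ L : ℝ in atTop, Real.log (Cb * Real.exp (δ / 8)) ≤ η' / 4 * L := by
    have : Tendsto (fun L : ℝ => η' / 4 * L) atTop atTop :=
      tendsto_id.const_mul_atTop (by positivity)
    exact this.eventually_ge_atTop _
  have hev3 : ∀ᶠ L : ℝ in atTop, ‖z₀‖ * δ - Real.log β ≤ η' / 4 * L := by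
    have : Tendsto (fun L : ℝ => η' / 4 * L) atTop atTop :=
      tendsto_id.const_mul_atTop (by positivity)
    exact this.eventually_ge_atTop _
  filter_upwards [hev1, hev2, hev3, eventually_ge_atTop 1, eventually_ge_atTop δ,
    eventually_ge_atTop (δ * (‖z₀‖ + 1)), eventually_ge_atTop (δ * (‖ρ₀‖ + 1))] with
    L hL1 hL2 hL3 hLone hLδ hLz hLρ
  -- parameters
  set N : ℕ := ⌈2 * L⌉₊ with hN
  have hN1 : 2 * L ≤ N := Nat.le_ceil _
  have hN2 : (N : ℝ) ≤ 3 * L := by
    have := Nat.ceil_lt_add_one (show 0 ≤ 2 * L by linarith)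
    linarith
  have hNp : (0 : ℝ) < N := by linarith
  set h : ℝ := δ / (4 * N) with hh
  have hh0 : 0 < h := by positivity
  have hhN : N * h = δ / 4 := by rw [hh]; field_simp
  have hhL : h ≤ δ / (8 * L) := by
    rw [hh]
    apply div_le_div_of_nonneg_left hδ.le (by positivity)
    linarith
  have hh1 : h ≤ 1 := by
    refine hhL.trans ?_
    rw [div_le_one (by positivity)]
    linarith
  set T : ℝ := 48 * N / δ with hT
  have hTh : 12 ≤ T * h := by
    have : T * h = 12 := by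
      rw [hT, hh]
      field_simp
      norm_num
    exact this.ge
  have hT0 : 0 < T := by positivity
  set T' : ℝ := T + 3 with hT'
  have hT'1 : 3 ≤ T' := by linarith
  have hT'A : T' ≤ A * L := by
    rw [hT', hT, hA]
    have h1 : 48 * (N : ℝ) / δ ≤ 144 / δ * L := by
      rw [div_mul_eq_mul_div, div_le_div_iff_of_pos_right hδ]
      linarith
    nlinarith
  have hT'L : 96 * L / δ ≤ T' := by
    rw [hT', hT]
    have : 96 * L / δ ≤ 48 * (N : ℝ) / δ := by
      rw [div_le_div_iff_of_pos_right hδ]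
      linarith
    linarith
  set d : ℝ := 1 / (16 * T') with hd
  have hd0 : 0 < d := by positivity
  have hd1 : d ≤ 1 := by
    rw [hd, div_le_one (by positivity)]
    linarith
  set S : Finset ℂ := (ZF σ T).erase ρ₀ with hS
  have hSmem : ∀ ρ ∈ S, FF ρ = 0 ∧ σ ≤ ρ.re ∧ |ρ.im| ≤ T' := fun ρ hρ =>
    mem_ZF.1 (Finset.mem_of_mem_erase hρ)
  set Z : List ℂ := S.toList.map (fun ρ => ρ - 1 / 2) with hZ
  have hZmem : ∀ w ∈ Z, ∃ ρ ∈ S, w = ρ - 1 / 2 := by
    intro w hw
    rw [hZ, List.mem_map] at hw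
    obtain ⟨ρ, hρ, rfl⟩ := hw
    exact ⟨ρ, Finset.mem_toList.1 hρ, rfl⟩
  have hZlen : Z.length = S.card := by
    rw [hZ, List.length_map, Finset.length_toList]
  set m : ℕ := Z.length with hm
  have hmC : (m : ℝ) ≤ C * (A * L) ^ α := by
    have h1 := hdens T' (by linarith) S hSmem
    have h2 : (S.card : ℝ) ≤ ∑ ρ ∈ S, (mu ρ : ℝ) := by
      rw [Finset.card_eq_sum_ones, Nat.cast_sum]
      apply Finset.sum_le_sum
      intro ρ hρ
      exact_mod_cast mu_pos ρ (hSmem ρ hρ).1
    have h3 : T' ^ α ≤ (A * L) ^ α := Real.rpow_le_rpow (by linarith) hT'A hα0.le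
    rw [hZlen]
    calc (S.card : ℝ) ≤ C * T' ^ α := h2.trans h1
      _ ≤ C * (A * L) ^ α := by gcongr
  have hlogT : Real.log (32 * T' / c₀) ≤ Real.log (32 * A / c₀ * L) := by
    apply Real.log_le_log (by positivity)
    rw [div_mul_eq_mul_div]
    apply div_le_div_of_nonneg_right _ hc₀.le
    linarith
  have hlog4 : Real.log 4 ≤ Real.log (32 * T' / c₀) := by
    apply Real.log_le_log (by norm_num)
    rw [le_div_iff₀ hc₀]
    linarith
  have hlog41 : 1 ≤ Real.log 4 := by
    rw [Real.le_log_iff_exp_le (by norm_num)]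
    have := Real.exp_one_lt_d9
    linarith
  have hmlog : m * Real.log (32 * T' / c₀) ≤ η' / 4 * L := by
    calc m * Real.log (32 * T' / c₀) ≤ (C * (A * L) ^ α) * Real.log (32 * A / c₀ * L) := by
          apply mul_le_mul hmC hlogT (by linarith) (by positivity)
      _ ≤ η' / 4 * L := hL1
  have hm4 : m * Real.log 4 ≤ η' / 4 * L :=
    (mul_le_mul_of_nonneg_left hlog4 (Nat.cast_nonneg m)).trans hmlog
  have hmL : (m : ℝ) ≤ L := by
    have h1 : (m : ℝ) * 1 ≤ m * Real.log 4 := mul_le_mul_of_nonneg_left hlog41 (Nat.cast_nonneg m)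
    nlinarith
  have h4m : (4 : ℝ) ^ m ≤ Real.exp (η' / 4 * L) := by
    calc (4 : ℝ) ^ m = Real.exp (m * Real.log 4) := by
          rw [Real.exp_nat_mul, Real.exp_log (by norm_num)]
      _ ≤ _ := Real.exp_le_exp.2 hm4
  have hZre : ∀ w ∈ Z, |w.re| ≤ 1 / 2 := by
    intro w hw
    obtain ⟨ρ, hρ, rfl⟩ := hZmem w hw
    obtain ⟨h1, h2, _⟩ := hSmem ρ hρ
    have h3 := ZU.J_g2b.FF_zero_re h1
    rw [abs_le]
    simp only [sub_re, one_re, div_ofNat_re]
    constructor <;> linarith
  obtain ⟨k, hk1, hk2, hk3, hk4⟩ := hKO b (δ / 4) 1 hb hbs hbB Z d h N hd0 hd1 hh0 hZre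
  have hCbpos : 0 < Cb * Real.exp (δ / 8) := by positivity
  have hconst : Cb * Real.exp (δ / 8) ≤ Real.exp (η' / 4 * L) := by
    rw [← Real.exp_log hCbpos]
    exact Real.exp_le_exp.2 hL2
  -- upper bound of the averages
  have havg : ∀ z : ℂ, |z.re| ≤ 1 / 2 →
      ‖(∫ t in (0 : ℝ)..1, cexp (z * h * t)) ^ N‖ ≤ Real.exp (δ / 8) := by
    intro z hz
    rw [norm_pow]
    have h1 := avg_le z h hz hh0
    calc ‖∫ t in (0 : ℝ)..1, cexp (z * h * t)‖ ^ N ≤ Real.exp (h / 2) ^ N :=
          pow_le_pow_left₀ (norm_nonneg _) h1 N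
      _ = Real.exp (δ / 8) := by
          rw [← Real.exp_nat_mul]
          congr 1
          linarith
  have hprod : ∀ z : ℂ, |z.re| ≤ 1 / 2 →
      ‖(Z.map fun w => 1 - cexp ((z - w) * d)).prod‖ ≤ 4 ^ m := by
    intro z hz
    exact prod_le _ 4 Z fun w hw => fac_le z w d hd0 hd1 hz (hZre w hw)
  refine ⟨k, hk1, ?_, ?_, ?_, ?_, ?_⟩
  · -- support
    intro u hu
    apply hk2
    refine lt_of_le_of_lt ?_ hu
    have h1 : (m : ℝ) * d ≤ δ / 2 := by
      rw [hd, mul_one_div, div_le_iff₀ (by positivity)]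
      have h2 : 96 * L ≤ T' * δ := by
        rw [div_le_iff₀ hδ] at hT'L
        exact hT'L
      nlinarith
    rw [hhN]
    linarith
  · -- sup norm
    intro u
    refine (hk3 u).trans ?_
    rw [mul_one]
    calc (3 : ℝ) ^ m ≤ 4 ^ m := pow_le_pow_left₀ (by norm_num) (by norm_num) m
      _ ≤ Real.exp (η' / 4 * L) := h4m
      _ ≤ Real.exp (η * L) := by
          apply Real.exp_le_exp.2
          nlinarith
  · -- lower bound
    rw [hk4, norm_mul, norm_mul, norm_pow]
    have h1 : (c₀ / (32 * T')) ^ m ≤ ‖(Z.map fun w => 1 - cexp ((z₀ - w) * d)).prod‖ := by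
      apply prod_ge _ _ (by positivity)
      intro w hw
      obtain ⟨ρ, hρ, rfl⟩ := hZmem w hw
      obtain ⟨g1, g2, g3⟩ := hSmem ρ hρ
      have g4 := ZU.J_g2b.FF_zero_re g1
      have g5 := hgap ρ g1 (Finset.ne_of_mem_erase hρ)
      have e1 : z₀ - (ρ - 1 / 2) = ρ₀ - ρ := by rw [hz₀]; ring
      rw [e1]
      have g6 : ‖ρ₀ - ρ‖ ≤ 2 * T' := by
        have g7 := norm_sub_le ρ₀ ρ
        have g8 := Complex.norm_le_abs_re_add_abs_im ρ
        have g9 : |ρ.re| ≤ 1 := by
          rw [abs_le]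
          constructor <;> linarith
        have g10 : ‖ρ₀‖ + 1 ≤ T' := by
          refine le_trans ?_ hT'L
          rw [le_div_iff₀ hδ]
          nlinarith
        linarith
      have e2 : ‖(ρ₀ - ρ) * (d : ℂ)‖ = ‖ρ₀ - ρ‖ * d := by
        rw [norm_mul, Complex.norm_real, Real.norm_of_nonneg hd0.le]
      have g11 : ‖(ρ₀ - ρ) * (d : ℂ)‖ ≤ 1 / 2 := by
        rw [e2, hd, mul_one_div, div_le_iff₀ (by positivity)]
        linarith
      have g12 := fac_ge _ g11
      refine le_trans ?_ g12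
      rw [e2, hd]
      have e3 : c₀ / (32 * T') = c₀ * (1 / (16 * T')) / 2 := by field_simp; norm_num
      rw [e3]
      gcongr
    have h2 : Real.exp (-(η' / 4 * L)) ≤ (c₀ / (32 * T')) ^ m := by
      have e1 : c₀ / (32 * T') = Real.exp (-Real.log (32 * T' / c₀)) := by
        rw [Real.exp_neg, Real.exp_log (by positivity), inv_div]
      rw [e1, ← Real.exp_nat_mul]
      apply Real.exp_le_exp.2
      linarith
    have h3 : Real.exp (-(‖z₀‖ * δ)) ≤ ‖∫ t in (0 : ℝ)..1, cexp (z₀ * h * t)‖ ^ N := by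
      have g1 : ‖z₀‖ * h ≤ 1 / 4 := by
        have g2 : ‖z₀‖ * h ≤ ‖z₀‖ * (δ / (8 * L)) :=
          mul_le_mul_of_nonneg_left hhL (norm_nonneg _)
        refine g2.trans ?_
        rw [mul_div_assoc', div_le_iff₀ (by positivity)]
        nlinarith [norm_nonneg z₀]
      have g2 := avg_ge z₀ h hh0 g1
      calc Real.exp (-(‖z₀‖ * δ)) = Real.exp (-(4 * (‖z₀‖ * h))) ^ N := by
            rw [← Real.exp_nat_mul]
            congr 1
            have : (N : ℝ) * -(4 * (‖z₀‖ * h)) = -(4 * ‖z₀‖ * (N * h)) := by ring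
            rw [this, hhN]
            ring
        _ ≤ _ := pow_le_pow_left₀ (Real.exp_pos _).le g2 N
    have h4 : Real.exp (-(η * L)) ≤ Real.exp (-(η' / 4 * L)) * Real.exp (-(‖z₀‖ * δ)) * β := by
      have e1 : β = Real.exp (Real.log β) := (Real.exp_log hbz).symm
      rw [e1, ← Real.exp_add, ← Real.exp_add]
      apply Real.exp_le_exp.2
      nlinarith
    refine h4.trans ?_
    apply mul_le_mul_of_nonneg_right _ hbz.le
    exact mul_le_mul (h2.trans h1) h3 (Real.exp_pos _).le (norm_nonneg _)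
  · -- upper bound on the strip
    intro z hz
    rw [hk4, norm_mul, norm_mul]
    have g1 := hprod z hz
    have g2 := havg z hz
    have g3 := hbd z hz
    calc ‖(Z.map fun w => 1 - cexp ((z - w) * d)).prod‖ *
          ‖(∫ t in (0 : ℝ)..1, cexp (z * h * t)) ^ N‖ * ‖lap b z‖
        ≤ 4 ^ m * Real.exp (δ / 8) * (Cb / (1 + z.im ^ 2)) := by
          apply mul_le_mul (mul_le_mul g1 g2 (norm_nonneg _) (by positivity)) g3 (norm_nonneg _)
            (by positivity)
      _ = 4 ^ m * (Cb * Real.exp (δ / 8)) / (1 + z.im ^ 2) := by ring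
      _ ≤ Real.exp (η * L) / (1 + z.im ^ 2) := by
          gcongr
          calc (4 : ℝ) ^ m * (Cb * Real.exp (δ / 8)) ≤
                Real.exp (η' / 4 * L) * Real.exp (η' / 4 * L) :=
                mul_le_mul h4m hconst hCbpos.le (Real.exp_pos _).le
            _ = Real.exp (η' / 2 * L) := by rw [← Real.exp_add]; congr 1; ring
            _ ≤ Real.exp (η * L) := by
                apply Real.exp_le_exp.2
                nlinarith
  · -- the other zeros
    intro ρ hρ hne hρσ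
    have hre : |(ρ - 1 / 2).re| ≤ 1 / 2 := by
      rw [abs_le]
      have h1 := hρ.2
      simp only [sub_re, one_re, div_ofNat_re]
      constructor <;> linarith [h1.1, h1.2]
    have him : (ρ - 1 / 2).im = ρ.im := by simp
    by_cases hc : |ρ.im| ≤ T'
    · have hmem : ρ - 1 / 2 ∈ Z := by
        rw [hZ, List.mem_map]
        refine ⟨ρ, Finset.mem_toList.2 ?_, rfl⟩
        rw [hS, Finset.mem_erase]
        exact ⟨hne, mem_ZF.2 ⟨zero_FF hρ, hρσ, hc⟩⟩
      have h0 : (Z.map fun w => 1 - cexp ((ρ - 1 / 2 - w) * d)).prod = 0 := by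
        apply List.prod_eq_zero
        rw [List.mem_map]
        exact ⟨ρ - 1 / 2, hmem, by simp⟩
      rw [hk4, h0, zero_mul, zero_mul, norm_zero]
      positivity
    · push Not at hc
      rw [hk4, norm_mul, norm_mul, norm_pow]
      have g1 := hprod _ hre
      have g2 := avg_small (ρ - 1 / 2) h T hre hh0 hh1 hTh (by rw [him]; linarith)
      have g3 := hbd _ hre
      rw [him] at g3
      have g4 : ‖∫ t in (0 : ℝ)..1, cexp ((ρ - 1 / 2) * h * t)‖ ^ N ≤ Real.exp (-(2 * L)) := by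
        calc ‖∫ t in (0 : ℝ)..1, cexp ((ρ - 1 / 2) * h * t)‖ ^ N ≤ (1 / 4) ^ N :=
              pow_le_pow_left₀ (norm_nonneg _) g2 N
          _ ≤ Real.exp (-1) ^ N := by
              apply pow_le_pow_left₀ (by norm_num)
              rw [Real.exp_neg, one_div]
              apply inv_anti₀ (Real.exp_pos _)
              have := Real.exp_one_lt_d9
              linarith
          _ = Real.exp (-(N : ℝ)) := by
              rw [← Real.exp_nat_mul]
              congr 1
              ring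
          _ ≤ Real.exp (-(2 * L)) := by
              apply Real.exp_le_exp.2
              linarith
      have g5 : Cb ≤ Real.exp (η' / 4 * L) := by
        refine le_trans ?_ hconst
        have : 1 ≤ Real.exp (δ / 8) := Real.one_le_exp (by positivity)
        nlinarith
      calc ‖(Z.map fun w => 1 - cexp ((ρ - 1 / 2 - w) * d)).prod‖ *
            ‖∫ t in (0 : ℝ)..1, cexp ((ρ - 1 / 2) * h * t)‖ ^ N * ‖lap b (ρ - 1 / 2)‖
          ≤ Real.exp (η' / 4 * L) * Real.exp (-(2 * L)) *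
              (Real.exp (η' / 4 * L) / (1 + ρ.im ^ 2)) := by
            apply mul_le_mul (mul_le_mul (g1.trans h4m) g4 (by positivity) (Real.exp_pos _).le)
              (g3.trans (by gcongr)) (norm_nonneg _) (by positivity)
        _ = Real.exp (η' / 2 * L - 2 * L) / (1 + ρ.im ^ 2) := by
            rw [mul_div_assoc', ← Real.exp_add, ← Real.exp_add]
            congr 2
            ring
        _ ≤ Real.exp (-L) / (1 + ρ.im ^ 2) := by
            gcongr
            nlinarith

end Pool.Agent.W571.WQ.KP
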