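import Pool.Agent.W187.WQ.BotS
import Pool.Agent.W8.WP.LapB

/-! WQ-POI: Poisson summation for even twice differentiable functions. -/

set_option autoImplicit false

open Complex MeasureTheory Set Filter Asymptotics
open scoped FourierTransform
open Pool.Agent.W187.WP Pool.Agent.W187.WQ

namespace Pool.Agent.W571.WQ.Poi

lemma odd_int {f : ℝ → ℝ} (h : ∀ y, f (-y) = - f y) : ∫ y, f y = 0 := by
  have h1 := integral_neg_eq_self f volume
  simp only [h] at h1
  rw [integral_neg] at h1
  linarith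

lemma fold {f : ℤ → ℝ} (hf : Summable f) (he : ∀ n, f (-n) = f n) :
    ∑' n : ℤ, f n = f 0 + 2 * ∑' n : ℕ, f ((n : ℤ) + 1) := by
  have h1 : Summable (fun n : ℕ => f (n : ℤ)) := hf.comp_injective Nat.cast_injective
  have h2 : Summable (fun n : ℕ => f (-((n : ℤ) + 1))) := by
    apply hf.comp_injective
    intro a b hab
    simpa using hab
  rw [tsum_of_nat_of_neg_add_one h1 h2, h1.tsum_eq_zero_add]
  simp only [he]
  push_cast
  ring

/-- cosine transform -/
noncomputable def ct (h : ℝ → ℝ) (x s : ℝ) : ℝ := ∫ y, h y * Real.cos (2 * Real.pi * s / x * y)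

lemma four {h : ℝ → ℝ} (hh : Continuous h) (hc : HasCompactSupport h) (he : ∀ y, h (-y) = h y)
    {x : ℝ} (hx : 0 < x) (s : ℝ) :
    𝓕 (fun y : ℝ => ((h (x * y) : ℝ) : ℂ)) s = ((1 / x * ct h x s : ℝ) : ℂ) := by
  rw [Real.fourier_real_eq_integral_exp_smul]
  have hcx : HasCompactSupport (fun y => h (x * y)) := by
    have := hc.comp_homeomorph (Homeomorph.mulLeft₀ x hx.ne')
    exact this
  have hcont : Continuous (fun y => h (x * y)) := hh.comp (by fun_prop)
  have i1 : Integrable (fun y : ℝ => h (x * y) * Real.cos (2 * Real.pi * s * y)) :=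
    (hcont.mul (by fun_prop)).integrable_of_hasCompactSupport hcx.mul_right
  have i2 : Integrable (fun y : ℝ => h (x * y) * Real.sin (2 * Real.pi * s * y)) :=
    (hcont.mul (by fun_prop)).integrable_of_hasCompactSupport hcx.mul_right
  have e1 : (fun v : ℝ => cexp (((-2 * Real.pi * v * s : ℝ) : ℂ) * I) • ((h (x * v) : ℝ) : ℂ)) =
      fun v : ℝ => ((h (x * v) * Real.cos (2 * Real.pi * s * v) : ℝ) : ℂ) -
        ((h (x * v) * Real.sin (2 * Real.pi * s * v) : ℝ) : ℂ) * I := by
    funext v
    rw [Complex.exp_mul_I, smul_eq_mul, ← Complex.ofReal_cos, ← Complex.ofReal_sin]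
    have e2 : -2 * Real.pi * v * s = -(2 * Real.pi * s * v) := by ring
    rw [e2, Real.cos_neg, Real.sin_neg]
    push_cast
    ring
  have i1c : Integrable (fun y : ℝ => ((h (x * y) * Real.cos (2 * Real.pi * s * y) : ℝ) : ℂ)) :=
    i1.ofReal
  have i2c : Integrable (fun y : ℝ =>
    ((h (x * y) * Real.sin (2 * Real.pi * s * y) : ℝ) : ℂ) * I) := (i2.ofReal (𝕜 := ℂ)).mul_const I
  rw [e1, integral_sub i1c i2c, integral_mul_const, integral_complex_ofReal,
    integral_complex_ofReal]
  have e3 : ∫ y : ℝ, h (x * y) * Real.sin (2 * Real.pi * s * y) = 0 := by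
    apply odd_int
    intro y
    have e4 : x * -y = -(x * y) := by ring
    have e5 : 2 * Real.pi * s * -y = -(2 * Real.pi * s * y) := by ring
    rw [e4, he, e5, Real.sin_neg]
    ring
  have e6 : ∫ y : ℝ, h (x * y) * Real.cos (2 * Real.pi * s * y) = 1 / x * ct h x s := by
    have e7 := Measure.integral_comp_mul_left
      (fun y : ℝ => h y * Real.cos (2 * Real.pi * s / x * y)) x
    have e8 : (fun y : ℝ => h (x * y) * Real.cos (2 * Real.pi * s / x * (x * y))) =
        fun y : ℝ => h (x * y) * Real.cos (2 * Real.pi * s * y) := by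
      funext y
      congr 2
      field_simp
    rw [e8] at e7
    rw [e7, abs_of_pos (inv_pos.2 hx), smul_eq_mul, one_div]
    rfl
  rw [e3, e6]
  simp

theorem poi : S_POI := by
  intro h hh hc he x hx
  set g : ℝ → ℂ := fun y => ((h (x * y) : ℝ) : ℂ) with hg
  have hcx : HasCompactSupport (fun y => h (x * y)) := by
    have := hc.comp_homeomorph (Homeomorph.mulLeft₀ x hx.ne')
    exact this
  have hgs : ContDiff ℝ 2 g := by
    apply Complex.ofRealCLM.contDiff.comp
    exact hh.comp (contDiff_const.mul contDiff_id)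
  have hgc : HasCompactSupport g := hcx.comp_left (g := fun t : ℝ => (t : ℂ)) (by simp)
  have hbig : g =O[cocompact ℝ] fun y : ℝ => |y| ^ (-(2 : ℝ)) := by
    have h1 : g =ᶠ[cocompact ℝ] 0 := by
      rw [← coclosedCompact_eq_cocompact]
      exact hasCompactSupport_iff_eventuallyEq.1 hgc
    exact h1.trans_isBigO (isBigO_zero _ _)
  have hF : ∀ n : ℤ, 𝓕 g (n : ℝ) = ((1 / x * ct h x (n : ℝ) : ℝ) : ℂ) := fun n =>
    four hh.continuous hc he hx n
  obtain ⟨C, hC, hdec⟩ := Pool.Agent.W8.WP.lap_decay hgs hgc 0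
  have hlap : ∀ n : ℤ, 𝓕 g (n : ℝ) = lap g (-(2 * Real.pi * n : ℝ) * I) := by
    intro n
    rw [Real.fourier_real_eq_integral_exp_smul]
    unfold lap
    congr 1
    funext v
    rw [smul_eq_mul, mul_comm]
    congr 2
    push_cast
    ring
  have hsum : Summable (fun n : ℤ => 𝓕 g (n : ℝ)) := by
    have h1 : Summable (fun n : ℤ => C * |(n : ℝ)| ^ (-(2 : ℝ))) :=
      (Real.summable_abs_int_rpow one_lt_two).mul_left C
    apply Summable.of_norm_bounded_eventually h1
    rw [eventually_cofinite]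
    apply (Set.finite_singleton (0 : ℤ)).subset
    intro n hn
    by_contra hn0
    apply hn
    have hn1 : (1 : ℝ) ≤ |(n : ℝ)| := by
      have : (1 : ℤ) ≤ |n| := Int.one_le_abs hn0
      exact_mod_cast this
    rw [hlap]
    have hre : |(-((2 * Real.pi * n : ℝ) : ℂ) * I).re| ≤ 0 := by simp
    have him : (-((2 * Real.pi * n : ℝ) : ℂ) * I).im = -(2 * Real.pi * n) := by simp
    refine (hdec _ hre).trans ?_
    rw [him, Real.rpow_neg (abs_nonneg _), ← div_eq_mul_inv]
    apply div_le_div_of_nonneg_left hC.le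
    · positivity
    · rw [Real.rpow_two, sq_abs]
      have hpi := Real.pi_gt_three
      have h2 : (-(2 * Real.pi * (n : ℝ))) ^ 2 = (2 * Real.pi) ^ 2 * (n : ℝ) ^ 2 := by ring
      have h3 : (1 : ℝ) ≤ (2 * Real.pi) ^ 2 := by nlinarith
      have h4 : 1 * (n : ℝ) ^ 2 ≤ (2 * Real.pi) ^ 2 * (n : ℝ) ^ 2 :=
        mul_le_mul_of_nonneg_right h3 (sq_nonneg _)
      rw [h2]
      linarith
  have hpois := Real.tsum_eq_tsum_fourier_of_rpow_decay_of_summable hgs.continuous one_lt_two
    hbig hsum 0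
  simp only [zero_add] at hpois
  have e1 : ∀ n : ℤ, 𝓕 g (n : ℝ) * fourier n ((0 : ℝ) : UnitAddCircle) =
      ((1 / x * ct h x (n : ℝ) : ℝ) : ℂ) := by
    intro n
    rw [hF n]
    simp
  simp only [e1] at hpois
  have hpois2 : ∑' n : ℤ, h (x * n) = ∑' n : ℤ, 1 / x * ct h x (n : ℝ) := by
    have : ((∑' n : ℤ, h (x * n) : ℝ) : ℂ) = ((∑' n : ℤ, 1 / x * ct h x (n : ℝ) : ℝ) : ℂ) := by
      rw [Complex.ofReal_tsum, Complex.ofReal_tsum]
      exact hpois
    exact_mod_cast this
  have s1 : Summable (fun n : ℤ => h (x * n)) := by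
    have h1 : Summable (fun n : ℤ => g (n : ℝ)) :=
      summable_of_isBigO (Real.summable_abs_int_rpow one_lt_two)
        (hbig.comp_tendsto Int.tendsto_coe_cofinite)
    exact Complex.summable_ofReal.1 h1
  have s2 : Summable (fun n : ℤ => 1 / x * ct h x (n : ℝ)) := by
    simp only [hF] at hsum
    exact Complex.summable_ofReal.1 hsum
  have s3 : Summable (fun n : ℤ => ct h x (n : ℝ)) := by
    have := s2.mul_left x
    apply this.congr
    intro n
    field_simp
  have ect : ∀ s, ct h x (-s) = ct h x s := by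
    intro s
    unfold ct
    congr 1
    funext y
    have : 2 * Real.pi * -s / x * y = -(2 * Real.pi * s / x * y) := by ring
    rw [this, Real.cos_neg]
  have f1 := fold s1 (fun n => by
    push_cast
    rw [mul_neg, he])
  have f2 := fold s2 (fun n => by
    push_cast
    rw [ect])
  have s4 : Summable (fun n : ℕ => ct h x ((n : ℝ) + 1)) := by
    have : Function.Injective (fun n : ℕ => ((n : ℤ) + 1)) := by
      intro a b hab
      simpa using hab
    have h1 := s3.comp_injective this
    apply h1.congr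
    intro n
    simp
  constructor
  · exact s4
  · rw [hpois2, f2] at f1
    have e2 : ct h x ((0 : ℤ) : ℝ) = ∫ y, h y := by
      unfold ct
      congr 1
      funext y
      simp
    have e3 : ∑' n : ℕ, 1 / x * ct h x (((n : ℤ) + 1 : ℤ) : ℝ) =
        1 / x * ∑' n : ℕ, ct h x ((n : ℝ) + 1) := by
      rw [tsum_mul_left]
      congr 1
      congr 1
      funext n
      push_cast
      rfl
    have e4 : ∑' n : ℕ, h (x * (((n : ℤ) + 1 : ℤ) : ℝ)) = ∑' n : ℕ, h (((n : ℝ) + 1) * x) := by
      congr 1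
      funext n
      push_cast
      rw [mul_comm]
    rw [e2, e3, e4] at f1
    have e5 : h (x * ((0 : ℤ) : ℝ)) = h 0 := by simp
    rw [e5] at f1
    change _ = 1 / x * (∑' n : ℕ, ct h x ((n : ℝ) + 1)) + _ - _
    have e6 : 1 / (2 * x) * (∫ y, h y) = 1 / x * (∫ y, h y) / 2 := by
      field_simp
    rw [e6]
    linarith

end Pool.Agent.W571.WQ.Poi
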